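import Mathlib

set_option autoImplicit false

namespace Pool.Agent.Results.MP_5a868e_co.NotPR

open MvPolynomial

def P (d : ℕ) : Set (MvPolynomial ℕ ℕ) :=
  {f | f ≠ 0 ∧ constantCoeff f = 0 ∧ ∀ i, f.degreeOf i ≤ d}

theorem mem_add {x y : MvPolynomial ℕ ℕ} {m : ℕ →₀ ℕ} :
    m ∈ (x + y).support ↔ m ∈ x.support ∨ m ∈ y.support := by
  simp only [mem_support_iff, coeff_add]
  omega

theorem add_mem_mul {x y : MvPolynomial ℕ ℕ} {m n : ℕ →₀ ℕ} (hm : m ∈ x.support)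
    (hn : n ∈ y.support) : m + n ∈ (x * y).support := by
  rw [mem_support_iff] at hm hn ⊢
  rw [coeff_mul]
  intro h
  have := (Finset.sum_eq_zero_iff.1 h) (m, n) (by simp)
  rcases Nat.mul_eq_zero.1 this with h | h
  · exact hm h
  · exact hn h

theorem mem_mul {x y : MvPolynomial ℕ ℕ} {k : ℕ →₀ ℕ} (hk : k ∈ (x * y).support) :
    ∃ m ∈ x.support, ∃ n ∈ y.support, m + n = k :=
  Finset.mem_add.1 (support_mul x y hk)

noncomputable def D (f : MvPolynomial ℕ ℕ) : ℕ :=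
  f.support.sup (fun m => m.support.sup (fun i => m i))

theorem le_D {f : MvPolynomial ℕ ℕ} {m : ℕ →₀ ℕ} (hm : m ∈ f.support) (i : ℕ) : m i ≤ D f := by
  by_cases hi : i ∈ m.support
  · exact (Finset.le_sup (f := fun i => m i) hi).trans
      (Finset.le_sup (f := fun m : ℕ →₀ ℕ => m.support.sup (fun i => m i)) hm)
  · rw [Finsupp.notMem_support_iff.1 hi]; exact Nat.zero_le _

theorem D_le {d : ℕ} {f : MvPolynomial ℕ ℕ} (hf : f ∈ P d) : D f ≤ d := by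
  apply Finset.sup_le
  intro m hm
  apply Finset.sup_le
  intro i _
  exact (degreeOf_le_iff.1 (hf.2.2 i)) m hm

theorem exists_D {d : ℕ} {f : MvPolynomial ℕ ℕ} (hf : f ∈ P d) :
    0 < D f ∧ ∃ m ∈ f.support, ∃ i, m i = D f := by
  have hne : f.support.Nonempty := by
    rw [Finset.nonempty_iff_ne_empty, Ne, support_eq_empty]; exact hf.1
  have hnz : ∀ m ∈ f.support, m.support.Nonempty := by
    intro m hm
    rw [Finsupp.support_nonempty_iff]
    rintro rfl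
    exact (mem_support_iff.1 hm) hf.2.1
  obtain ⟨m, hm, h1⟩ := Finset.exists_mem_eq_sup f.support hne
    (fun m : ℕ →₀ ℕ => m.support.sup (fun i => m i))
  obtain ⟨i, hi, h2⟩ := Finset.exists_mem_eq_sup m.support (hnz m hm) (fun i => m i)
  have h3 : m i = D f := by rw [D, h1, h2]
  exact ⟨h3 ▸ Nat.pos_of_ne_zero (Finsupp.mem_support_iff.1 hi), m, hm, i, h3⟩

def V (f : MvPolynomial ℕ ℕ) (i : ℕ) : Prop := ∃ m ∈ f.support, m i = D f

def adj (f : MvPolynomial ℕ ℕ) (i j : ℕ) : Prop := ∃ m ∈ f.support, m i ≠ 0 ∧ m j ≠ 0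

def Phi (f : MvPolynomial ℕ ℕ) : Prop :=
  ∀ i j, V f i → V f j → ∃ k, V f k ∧ adj f i k ∧ adj f k j

theorem main {d : ℕ} {x y : MvPolynomial ℕ ℕ} (hx : x ∈ P d) (hy : y ∈ P d)
    (h1 : D y = D x) (h2 : D (x + y) = D x) (h3 : D (x * y) = D x) :
    Phi (x * y) ∧ ¬ Phi (x + y) := by
  obtain ⟨hpos, mx, hmx, u, hu⟩ := exists_D hx
  obtain ⟨_, my, hmy, v, hv⟩ := exists_D hy
  rw [h1] at hv
  have nx : ∀ i, ∀ m ∈ x.support, m i = D x → ∀ n ∈ y.support, n i = 0 := by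
    intro i m hm hi n hn
    have := le_D (add_mem_mul hm hn) i
    rw [h3, Finsupp.add_apply] at this
    omega
  have ny : ∀ i, ∀ n ∈ y.support, n i = D x → ∀ m ∈ x.support, m i = 0 := by
    intro i n hn hi m hm
    have := le_D (add_mem_mul hm hn) i
    rw [h3, Finsupp.add_apply] at this
    omega
  constructor
  · have Vu : V (x * y) u :=
      ⟨mx + my, add_mem_mul hmx hmy, by rw [h3, Finsupp.add_apply, nx u mx hmx hu my hmy]; omega⟩
    have Vv : V (x * y) v :=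
      ⟨mx + my, add_mem_mul hmx hmy, by rw [h3, Finsupp.add_apply, ny v my hmy hv mx hmx]; omega⟩
    have app : ∀ i, V (x * y) i → (∃ m ∈ x.support, m i ≠ 0) ∨ (∃ n ∈ y.support, n i ≠ 0) := by
      rintro i ⟨k, hk, hi⟩
      obtain ⟨m, hm, n, hn, rfl⟩ := mem_mul hk
      rw [h3, Finsupp.add_apply] at hi
      by_cases h : m i = 0
      · exact Or.inr ⟨n, hn, by omega⟩
      · exact Or.inl ⟨m, hm, h⟩
    have a1 : ∀ i j, (∃ m ∈ x.support, m i ≠ 0) → (∃ n ∈ y.support, n j ≠ 0) →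
        adj (x * y) i j ∧ adj (x * y) j i := by
      rintro i j ⟨m, hm, hi⟩ ⟨n, hn, hj⟩
      have e1 : (m + n) i ≠ 0 := by rw [Finsupp.add_apply]; omega
      have e2 : (m + n) j ≠ 0 := by rw [Finsupp.add_apply]; omega
      exact ⟨⟨m + n, add_mem_mul hm hn, e1, e2⟩, ⟨m + n, add_mem_mul hm hn, e2, e1⟩⟩
    have a2 : ∀ i, V (x * y) i → adj (x * y) i i := by
      rintro i ⟨k, hk, hi⟩
      exact ⟨k, hk, by omega, by omega⟩
    have ux : ∃ m ∈ x.support, m u ≠ 0 := ⟨mx, hmx, by omega⟩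
    have vy : ∃ n ∈ y.support, n v ≠ 0 := ⟨my, hmy, by omega⟩
    intro i j hi hj
    rcases app i hi with ai | ai <;> rcases app j hj with aj | aj
    · exact ⟨v, Vv, (a1 i v ai vy).1, (a1 j v aj vy).2⟩
    · exact ⟨j, hj, (a1 i j ai aj).1, a2 j hj⟩
    · exact ⟨j, hj, (a1 j i aj ai).2, a2 j hj⟩
    · exact ⟨u, Vu, (a1 u i ux ai).2, (a1 u j ux aj).1⟩
  · intro h
    obtain ⟨k, ⟨m, hm, hk⟩, ⟨p, hp, hpu, hpk⟩, ⟨q, hq, hqk, hqv⟩⟩ := h u v
      ⟨mx, mem_add.2 (Or.inl hmx), by rw [h2, hu]⟩ ⟨my, mem_add.2 (Or.inr hmy), by rw [h2, hv]⟩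
    rw [h2] at hk
    rcases mem_add.1 hm with hm | hm
    · rcases mem_add.1 hq with hq | hq
      · exact hqv (ny v my hmy hv q hq)
      · exact hqk (nx k m hm hk q hq)
    · rcases mem_add.1 hp with hp | hp
      · exact hpk (ny k m hm hk p hp)
      · exact hpu (nx u mx hmx hu p hp)

theorem result :
    ∀ d : ℕ, ∃ (r : ℕ) (c : P d → Fin r),
      ¬ ∃ (x y : MvPolynomial ℕ ℕ) (hx : x ∈ P d) (hy : y ∈ P d) (hs : x + y ∈ P d)
        (hp : x * y ∈ P d),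
        c ⟨y, hy⟩ = c ⟨x, hx⟩ ∧ c ⟨x + y, hs⟩ = c ⟨x, hx⟩ ∧ c ⟨x * y, hp⟩ = c ⟨x, hx⟩ := by
  intro d
  classical
  let e := Fintype.equivFin (Fin (d + 1) × Prop)
  refine ⟨_, fun f => e (⟨D f.1, Nat.lt_succ_of_le (D_le f.2)⟩, Phi f.1), ?_⟩
  rintro ⟨x, y, hx, hy, hs, hp, h1, h2, h3⟩
  have g1 := e.injective h1
  have g2 := e.injective h2
  have g3 := e.injective h3
  simp only [Prod.mk.injEq, Fin.mk.injEq] at g1 g2 g3
  obtain ⟨k1, k2⟩ := main hx hy g1.1 g2.1 g3.1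
  exact k2 (by rw [g2.2, ← g3.2]; exact k1)

end Pool.Agent.Results.MP_5a868e_co.NotPR
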